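import Pool.Agent.H11.ZDE.Loc2

/-!
# ZDE, module C: the claim CStmt
-/

set_option autoImplicit false
set_option linter.unusedSimpArgs false
set_option linter.unusedVariables false

namespace Pool.Agent.H11.ZDE

open RootLat

variable {L : Type*} [AddCommGroup L] {R : RootLat L}

namespace Sys

variable (S : Sys R) {x w : Module.End ℤ L} {a b b' c d d' g i z e f : L}

/-- G1 -/
theorem c13_G1 (hx : S.A x) (h : S.Arr x c e) (hi : R.Im x i) (hci : R.Q c i = -1) (nv : ¬ S.V (x * R.r (c + i)))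
    (h1 : R.Q i e = 1) : R.P (i - e) := by
  have hq : R.Q (i - e) (i - e) = 2 := by
    simp only [Q_sub, Q_subr, hi.q, h.fc.q, R.Q_comm e i, h1]; norm_num
  rcases R.P_root _ hq with hp | hp
  · exact hp
  · exfalso
    obtain ⟨k, rfl⟩ : ∃ k, e = i + k := ⟨e - i, by abel⟩
    have e1 : -(i - (i + k)) = k := by abel
    have e2 : i - (i + k) = -k := by abel
    rw [e1] at hp
    simp only [e2, Q_neg, Q_negr, neg_neg] at hq
    have hik : R.Q i k = -1 := by
      simp only [Q_addr, hi.q] at h1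
      linarith
    have hck : R.Q c k = 0 := by
      have := h.q
      simp only [Q_addr, hci] at this
      linarith
    have e : Ch R c i k := Ch.mk' h.fb.q hi.q hq hci hik hck h.fb.p hi.p hp
    have v1 : S.V (x * R.r c * R.r (i + k) * R.r (c + i)) :=
      S.dn h.v (b := c + i) (by (simp only [RootLat.Q_sub, RootLat.Q_smul, RootLat.Q_subr, RootLat.Q_smulr, RootLat.Q_add, RootLat.Q_addr, RootLat.Q_neg, RootLat.Q_negr, Ch.aa e, Ch.bb e, Ch.cc e, Ch.ab e, Ch.ba e, Ch.bc e, Ch.cb e, Ch.ac e, Ch.ca e]; try norm_num)) (R.P_add e.pa e.pb) hi.xn (by (simp only [Module.End.mul_apply, Module.End.one_apply, RootLat.r_apply, RootLat.Q_sub, RootLat.Q_smul, RootLat.Q_subr, RootLat.Q_smulr, RootLat.Q_add, RootLat.Q_addr, RootLat.Q_neg, RootLat.Q_negr, Ch.aa e, Ch.bb e, Ch.cc e, Ch.ab e, Ch.ba e, Ch.bc e, Ch.cb e, Ch.ac e, Ch.ca e, map_add, map_sub, map_neg, map_zsmul]; try module)) rfl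
    have v2 : S.V (x * R.r c * R.r (i + k) * R.r (c + i) * R.r i) :=
      S.dn v1 (b := i) e.bb e.pb h.fc.xp (by (simp only [Module.End.mul_apply, Module.End.one_apply, RootLat.r_apply, RootLat.Q_sub, RootLat.Q_smul, RootLat.Q_subr, RootLat.Q_smulr, RootLat.Q_add, RootLat.Q_addr, RootLat.Q_neg, RootLat.Q_negr, Ch.aa e, Ch.bb e, Ch.cc e, Ch.ab e, Ch.ba e, Ch.bc e, Ch.cb e, Ch.ac e, Ch.ca e, map_add, map_sub, map_neg, map_zsmul]; try module)) rfl
    exact nv (S.dn v2 (b := k) e.cc e.pc (R.P_add h.fb.xp h.fc.xp) (by (simp only [Module.End.mul_apply, Module.End.one_apply, RootLat.r_apply, RootLat.Q_sub, RootLat.Q_smul, RootLat.Q_subr, RootLat.Q_smulr, RootLat.Q_add, RootLat.Q_addr, RootLat.Q_neg, RootLat.Q_negr, Ch.aa e, Ch.bb e, Ch.cc e, Ch.ab e, Ch.ba e, Ch.bc e, Ch.cb e, Ch.ac e, Ch.ca e, map_add, map_sub, map_neg, map_zsmul]; try module)) (by (refine LinearMap.ext fun zz => ?_; simp only [Module.End.mul_apply, Module.End.one_apply,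 RootLat.r_apply, RootLat.Q_sub, RootLat.Q_smul, RootLat.Q_subr, RootLat.Q_smulr, RootLat.Q_add, RootLat.Q_addr, RootLat.Q_neg, RootLat.Q_negr, Ch.aa e, Ch.bb e, Ch.cc e, Ch.ab e, Ch.ba e, Ch.bc e, Ch.cb e, Ch.ac e, Ch.ca e, map_add, map_sub, map_neg, map_zsmul]; try module)))

/-- G3 -/
theorem c13_G3 (h : S.Arr x c e) (hd : R.Im x d) (h0 : R.Q d e = 0) (h1 : R.Q c d = -1) (hp : R.P (x (c + d)))
    (nv : ¬ S.V (x * R.r (c + d))) : ¬ S.V (x * R.r c * R.r (c + d + e)) := by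
  intro hV
  have e' : Ch R d c e := Ch.mk' hd.q h.fb.q h.fc.q (by rw [R.Q_comm]; exact h1) h.q h0 hd.p h.fb.p h.fc.p
  have v1 : S.V (x * R.r c * R.r (c + d + e) * R.r d) :=
    S.dn hV (b := d) e'.aa e'.pa h.fc.xp (by (simp only [Module.End.mul_apply, Module.End.one_apply, RootLat.r_apply, RootLat.Q_sub, RootLat.Q_smul, RootLat.Q_subr, RootLat.Q_smulr, RootLat.Q_add, RootLat.Q_addr, RootLat.Q_neg, RootLat.Q_negr, Ch.aa e', Ch.bb e', Ch.cc e', Ch.ab e', Ch.ba e', Ch.bc e', Ch.cb e', Ch.ac e', Ch.ca e', map_add, map_sub, map_neg, map_zsmul]; try module)) rfl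
  have v2 : S.V (x * R.r c * R.r (c + d + e) * R.r d * R.r c) :=
    S.dn v1 (b := c) e'.bb e'.pb (R.P_add h.fb.xp h.fc.xp) (by (simp only [Module.End.mul_apply, Module.End.one_apply, RootLat.r_apply, RootLat.Q_sub, RootLat.Q_smul, RootLat.Q_subr, RootLat.Q_smulr, RootLat.Q_add, RootLat.Q_addr, RootLat.Q_neg, RootLat.Q_negr, Ch.aa e', Ch.bb e', Ch.cc e', Ch.ab e', Ch.ba e', Ch.bc e', Ch.cb e', Ch.ac e', Ch.ca e', map_add, map_sub, map_neg, map_zsmul]; try module)) rfl
  exact nv (S.dn v2 (b := e) e'.cc e'.pc (R.P_add hp h.fc.xp) (by (simp only [Module.End.mul_apply, Module.End.one_apply, RootLat.r_apply, RootLat.Q_sub, RootLat.Q_smul, RootLat.Q_subr, RootLat.Q_smulr, RootLat.Q_add, RootLat.Q_addr, RootLat.Q_neg, RootLat.Q_negr, Ch.aa e', Ch.bb e', Ch.cc e', Ch.ab e', Ch.ba e', Ch.bc e', Ch.cb e', Ch.ac e', Ch.ca e', map_add, map_sub, map_neg, map_zsmul]; try module)) (by (refine LinearMap.ext fun zz => ?_; simp only [Module.End.mul_apply,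 Module.End.one_apply, RootLat.r_apply, RootLat.Q_sub, RootLat.Q_smul, RootLat.Q_subr, RootLat.Q_smulr, RootLat.Q_add, RootLat.Q_addr, RootLat.Q_neg, RootLat.Q_negr, Ch.aa e', Ch.bb e', Ch.cc e', Ch.ab e', Ch.ba e', Ch.bc e', Ch.cb e', Ch.ac e', Ch.ca e', map_add, map_sub, map_neg, map_zsmul]; try module)))

/-- G4 -/
theorem c13_G4 (hx : S.A x) (hd : R.Im x d) (hi : R.Im x i) (hdi : R.Q d i = 0) (hc : S.F x c)
    (hci : S.F x (c + i)) (hcd : R.Q c d = -1) (hp : R.P (x (d + c + i))) (nv : ¬ S.V (x * R.r (d + c + i))) :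
    ¬ S.V (x * R.r (d + c)) := by
  intro hV
  have h1 : R.Q c i = -1 := by
    have := hci.q
    simp only [Q_add, Q_addr, hc.q, hi.q, R.Q_comm i c] at this
    linarith
  have e : Ch R d c i := Ch.mk' hd.q hc.q hi.q (by rw [R.Q_comm]; exact hcd) h1 hdi hd.p hc.p hi.p
  have sdc : R.P (x (d + c)) := R.P_cast (R.P_add hp hi.xn) (by (simp only [Module.End.mul_apply, Module.End.one_apply, RootLat.r_apply, RootLat.Q_sub, RootLat.Q_smul, RootLat.Q_subr, RootLat.Q_smulr, RootLat.Q_add, RootLat.Q_addr, RootLat.Q_neg, RootLat.Q_negr, Ch.aa e, Ch.bb e, Ch.cc e, Ch.ab e, Ch.ba e, Ch.bc e, Ch.cb e, Ch.ac e, Ch.ca e, map_add, map_sub, map_neg, map_zsmul]; try module))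
  have f1 : S.F x (d + c) := ⟨by (simp only [RootLat.Q_sub, RootLat.Q_smul, RootLat.Q_subr, RootLat.Q_smulr, RootLat.Q_add, RootLat.Q_addr, RootLat.Q_neg, RootLat.Q_negr, Ch.aa e, Ch.bb e, Ch.cc e, Ch.ab e, Ch.ba e, Ch.bc e, Ch.cb e, Ch.ac e, Ch.ca e]; try norm_num), R.P_add e.pa e.pb, sdc, hV⟩
  have v0 := S.ruleO _ _ _ hx f1 hci (by (simp only [RootLat.Q_sub, RootLat.Q_smul, RootLat.Q_subr, RootLat.Q_smulr, RootLat.Q_add, RootLat.Q_addr, RootLat.Q_neg, RootLat.Q_negr, Ch.aa e, Ch.bb e, Ch.cc e, Ch.ab e, Ch.ba e, Ch.bc e, Ch.cb e, Ch.ac e, Ch.ca e]; try norm_num))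
  have v1 : S.V (x * R.r (d + c) * R.r (c + i) * R.r d) :=
    S.dn v0 (b := d) e.aa e.pa hi.xn (by (simp only [Module.End.mul_apply, Module.End.one_apply, RootLat.r_apply, RootLat.Q_sub, RootLat.Q_smul, RootLat.Q_subr, RootLat.Q_smulr, RootLat.Q_add, RootLat.Q_addr, RootLat.Q_neg, RootLat.Q_negr, Ch.aa e, Ch.bb e, Ch.cc e, Ch.ab e, Ch.ba e, Ch.bc e, Ch.cb e, Ch.ac e, Ch.ca e, map_add, map_sub, map_neg, map_zsmul]; try module)) rfl
  have v2 : S.V (x * R.r (d + c) * R.r (c + i) * R.r d * R.r c) :=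
    S.dn v1 (b := c) e.bb e.pb sdc (by (simp only [Module.End.mul_apply, Module.End.one_apply, RootLat.r_apply, RootLat.Q_sub, RootLat.Q_smul, RootLat.Q_subr, RootLat.Q_smulr, RootLat.Q_add, RootLat.Q_addr, RootLat.Q_neg, RootLat.Q_negr, Ch.aa e, Ch.bb e, Ch.cc e, Ch.ab e, Ch.ba e, Ch.bc e, Ch.cb e, Ch.ac e, Ch.ca e, map_add, map_sub, map_neg, map_zsmul]; try module)) rfl
  exact nv (S.dn v2 (b := c + i) (by (simp only [RootLat.Q_sub, RootLat.Q_smul, RootLat.Q_subr, RootLat.Q_smulr, RootLat.Q_add, RootLat.Q_addr, RootLat.Q_neg, RootLat.Q_negr, Ch.aa e, Ch.bb e, Ch.cc e, Ch.ab e, Ch.ba e, Ch.bc e, Ch.cb e, Ch.ac e, Ch.ca e]; try norm_num)) (R.P_add e.pb e.pc) hd.xn (by (simp only [Module.End.mul_apply, Module.End.one_apply, RootLat.r_apply, RootLat.Q_sub, RootLat.Q_smul, RootLat.Q_subr, RootLat.Q_smulr, RootLat.Q_add, RootLat.Q_addr, RootLat.Q_neg, RootLat.Q_negr, Ch.aa e, Ch.bb e, Ch.cc e, Ch.ab e, Ch.ba e, Ch.bc e, Ch.cb e, Ch.ac e,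 Ch.ca e, map_add, map_sub, map_neg, map_zsmul]; try module)) (by (refine LinearMap.ext fun zz => ?_; simp only [Module.End.mul_apply, Module.End.one_apply, RootLat.r_apply, RootLat.Q_sub, RootLat.Q_smul, RootLat.Q_subr, RootLat.Q_smulr, RootLat.Q_add, RootLat.Q_addr, RootLat.Q_neg, RootLat.Q_negr, Ch.aa e, Ch.bb e, Ch.cc e, Ch.ab e, Ch.ba e, Ch.bc e, Ch.cb e, Ch.ac e, Ch.ca e, map_add, map_sub, map_neg, map_zsmul]; try module)))

/-- G5 -/
theorem c13_G5 (hd : R.Im x d) (h1 : R.Q g d = -1) (hb : S.F x (g + d)) (he : S.F x e) (hg : R.Q g g = 2)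
    (pg : R.P g) (nv : ¬ S.V (x * R.r g))
    (h0 : R.Q g e = 0) (h2 : R.Q d e = -1) (hp : R.P (x (d + e))) : ¬ S.V (x * R.r e * R.r (g + d)) := by
  intro hV
  have e' : Ch R g d e := Ch.mk' hg hd.q he.q h1 h2 h0 pg hd.p he.p
  have v1 : S.V (x * R.r e * R.r (g + d) * R.r g) :=
    S.dn hV (b := g) e'.aa e'.pa hp (by (simp only [Module.End.mul_apply, Module.End.one_apply, RootLat.r_apply, RootLat.Q_sub, RootLat.Q_smul, RootLat.Q_subr, RootLat.Q_smulr, RootLat.Q_add, RootLat.Q_addr, RootLat.Q_neg, RootLat.Q_negr, Ch.aa e', Ch.bb e', Ch.cc e', Ch.ab e', Ch.ba e', Ch.bc e', Ch.cb e', Ch.ac e', Ch.ca e', map_add, map_sub, map_neg, map_zsmul]; try module)) rfl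
  have v2 : S.V (x * R.r e * R.r (g + d) * R.r g * R.r (d + e)) :=
    S.dn v1 (b := d + e) (by (simp only [RootLat.Q_sub, RootLat.Q_smul, RootLat.Q_subr, RootLat.Q_smulr, RootLat.Q_add, RootLat.Q_addr, RootLat.Q_neg, RootLat.Q_negr, Ch.aa e', Ch.bb e', Ch.cc e', Ch.ab e', Ch.ba e', Ch.bc e', Ch.cb e', Ch.ac e', Ch.ca e']; try norm_num)) (R.P_add e'.pb e'.pc) he.xp (by (simp only [Module.End.mul_apply, Module.End.one_apply, RootLat.r_apply, RootLat.Q_sub, RootLat.Q_smul, RootLat.Q_subr, RootLat.Q_smulr, RootLat.Q_add, RootLat.Q_addr, RootLat.Q_neg, RootLat.Q_negr, Ch.aa e', Ch.bb e', Ch.cc e', Ch.ab e', Ch.ba e', Ch.bc e', Ch.cb e', Ch.ac e', Ch.ca e', map_add, map_sub, map_neg, map_zsmul]; try module)) rfl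
  exact nv (S.dn v2 (b := d) e'.bb e'.pb hb.xp (by (simp only [Module.End.mul_apply, Module.End.one_apply, RootLat.r_apply, RootLat.Q_sub, RootLat.Q_smul, RootLat.Q_subr, RootLat.Q_smulr, RootLat.Q_add, RootLat.Q_addr, RootLat.Q_neg, RootLat.Q_negr, Ch.aa e', Ch.bb e', Ch.cc e', Ch.ab e', Ch.ba e', Ch.bc e', Ch.cb e', Ch.ac e', Ch.ca e', map_add, map_sub, map_neg, map_zsmul]; try module)) (by (refine LinearMap.ext fun zz => ?_; simp only [Module.End.mul_apply, Module.End.one_apply, RootLat.r_apply, RootLat.Q_sub, RootLat.Q_smul, RootLat.Q_subr, RootLat.Q_smulr, RootLat.Q_add, RootLat.Q_addr, RootLat.Q_neg, RootLat.Q_negr, Ch.aa e', Ch.bb e', Ch.cc e', Ch.ab e', Ch.ba e', Ch.bc e', Ch.cb e', Ch.ac e', Ch.ca e', map_add, map_sub, map_neg, map_zsmul]; try module)))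

theorem Core.swap {S : Sys R} (h : S.Core x b c d d') : S.Core x b c d' d :=
  ⟨h.sink, h.fc, h.id', h.id, by rw [R.Q_comm]; exact h.qdd, h.qcd', h.qcd, by rw [h.sum]; abel, h.nv', h.nv⟩

/-- positivity of `x (c + d)` in a core -/
theorem Core.pcd {S : Sys R} (h : S.Core x b c d d') : R.P (x (c + d)) := by
  have h1 := R.P_add h.sink.fb.xp h.id'.xn
  refine R.P_cast h1 ?_
  rw [h.sum]
  simp only [map_add]
  abel

theorem Core.qbc {S : Sys R} (h : S.Core x b c d d') : R.Q b c = 0 := by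
  rw [h.sum]
  simp only [Q_add, h.fc.q, R.Q_comm d c, R.Q_comm d' c, h.qcd, h.qcd']
  norm_num

theorem Core.qbd {S : Sys R} (h : S.Core x b c d d') : R.Q b d = 1 := by
  rw [h.sum]
  simp only [Q_add, h.id.q, R.Q_comm d' d, h.qcd, h.qdd]
  norm_num

/-- products with the end of an arrow out of `c` -/
theorem Core.q01 {S : Sys R} (h : S.Core x b c d d') (ha : S.Arr x c e) : R.Q d e = 0 ∨ R.Q d e = 1 := by
  have hne : d ≠ e := fun he => R.P_neg ha.fc.xp (he ▸ h.id.xn)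
  rcases R.Q_cases' h.id.q ha.fc.q h.id.p ha.fc.p hne with h1 | h1 | h1
  · exact (R.no_triangle h.fc.q h.id.q ha.fc.q h.fc.p h.id.p ha.fc.p h.qcd h1 ha.q).elim
  · exact Or.inl h1
  · exact Or.inr h1

/-- paths of length one -/
theorem c13_one (hx : S.A x) (h : S.Core x b c d d') (ha : S.Arr x c e) :
    R.P (b - e) ∧ (R.Q e b = 0 ∨ R.Q e b = 1) := by
  have hqeb : R.Q e b = -1 + R.Q d e + R.Q d' e := by
    rw [h.sum]
    simp only [Q_addr, R.Q_comm e c, ha.q, R.Q_comm e d, R.Q_comm e d']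
  rcases h.q01 ha with h1 | h1
  · rcases h.swap.q01 ha with h2 | h2
    · exfalso
      rw [h1, h2] at hqeb
      obtain rfl := h.sum
      have e0 : Ch R d c d' := Ch.mk' h.id.q h.fc.q h.id'.q (by rw [R.Q_comm]; exact h.qcd) h.qcd' h.qdd
        h.id.p h.fc.p h.id'.p
      have hv := h.sink.s e ha.fc (by rw [R.Q_comm]; linarith)
      have hb := h.sink.fb
      have arr := S.UT7 hx ha hb (by rw [R.Q_comm]; exact h.qbc) (by linarith) hv
      have hy := S.act hx hb
      have hi : R.Im (x * R.r (c + d + d')) d :=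
        ⟨h.id.q, h.id.p, R.P_cast h.swap.pcd (by (simp only [Module.End.mul_apply, Module.End.one_apply, RootLat.r_apply, RootLat.Q_sub, RootLat.Q_smul, RootLat.Q_subr, RootLat.Q_smulr, RootLat.Q_add, RootLat.Q_addr, RootLat.Q_neg, RootLat.Q_negr, Ch.aa e0, Ch.bb e0, Ch.cc e0, Ch.ab e0, Ch.ba e0, Ch.bc e0, Ch.cb e0, Ch.ac e0, Ch.ca e0, map_add, map_sub, map_neg, map_zsmul]; try module))⟩
      have nv : ¬ S.V (x * R.r (c + d + d') * R.r (c + d)) := fun hV =>
        h.nv (S.dn hV (b := d') e0.cc e0.pc hb.xp (by (simp only [Module.End.mul_apply, Module.End.one_apply, RootLat.r_apply, RootLat.Q_sub, RootLat.Q_smul, RootLat.Q_subr, RootLat.Q_smulr, RootLat.Q_add, RootLat.Q_addr, RootLat.Q_neg, RootLat.Q_negr, Ch.aa e0, Ch.bb e0, Ch.cc e0, Ch.ab e0, Ch.ba e0, Ch.bc e0, Ch.cb e0, Ch.ac e0, Ch.ca e0, map_add, map_sub, map_neg, map_zsmul]; try module)) (by (refine LinearMap.ext fun zz => ?_; simp only [Module.End.mul_apply, Module.End.one_apply,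 RootLat.r_apply, RootLat.Q_sub, RootLat.Q_smul, RootLat.Q_subr, RootLat.Q_smulr, RootLat.Q_add, RootLat.Q_addr, RootLat.Q_neg, RootLat.Q_negr, Ch.aa e0, Ch.bb e0, Ch.cc e0, Ch.ab e0, Ch.ba e0, Ch.bc e0, Ch.cb e0, Ch.ac e0, Ch.ca e0, map_add, map_sub, map_neg, map_zsmul]; try module)))
      have h3 := S.c13_G1 hy arr hi h.qcd nv (by
        rw [Q_addr, h1, R.Q_comm d, h.qbd]; norm_num)
      refine R.P_neg (R.P_add (R.P_add h.fc.p h.id'.p) ha.fc.p) (R.P_cast h3 ?_)
      abel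
    · have h3 := S.c13_G1 hx ha h.id' h.qcd' h.nv' h2
      refine ⟨R.P_cast (R.P_add (R.P_add h.fc.p h.id.p) h3) (by rw [h.sum]; abel), Or.inl (by rw [hqeb, h1, h2]; norm_num)⟩
  · have h3 := S.c13_G1 hx ha h.id h.qcd h.nv h1
    refine ⟨R.P_cast (R.P_add (R.P_add h.fc.p h.id'.p) h3) (by rw [h.sum]; abel), ?_⟩
    rcases h.swap.q01 ha with h2 | h2
    · exact Or.inl (by rw [hqeb, h1, h2]; norm_num)
    · exact Or.inr (by rw [hqeb, h1, h2]; norm_num)

/-- the new core at `f j` when `(c, f j) = 1` -/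
theorem core_shift (hx : S.A x) (h : S.Core x b c d d') (hf : S.F x f) (h1 : R.Q c f = 1) (hi : R.Im x (c - f))
    (hb : R.Q f b = 0) (hd : R.Q f d = -1) (hd' : R.Q f d' = 0) : S.Core x b f d (c - f + d') := by
  have hid : R.Q (c - f) d = 0 := by rw [Q_sub, h.qcd, hd]; norm_num
  have hid' : R.Q (c - f) d' = -1 := by rw [Q_sub, h.qcd', hd']; norm_num
  refine ⟨h.sink, hf, h.id, ⟨?_, R.P_add hi.p h.id'.p, ?_⟩, ?_, hd, ?_, by rw [h.sum]; abel, ?_, ?_⟩
  · rw [Q_add, Q_addr, Q_addr, hi.q, h.id'.q, R.Q_comm d' (c - f), hid']; norm_num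
  · refine R.P_cast (R.P_add hi.xn h.id'.xn) ?_
    simp only [map_add, map_sub]
    abel
  · rw [Q_addr, R.Q_comm d (c - f), hid, h.qdd]; norm_num
  · rw [Q_addr, hd', Q_subr, R.Q_comm f c, h1, hf.q]; norm_num
  · have h4 := S.c13_G4 hx h.id hi (by rw [R.Q_comm]; exact hid) hf (by
      have : f + (c - f) = c := by abel
      rw [this]; exact h.fc) hd (R.P_cast h.pcd (by
        have : d + f + (c - f) = c + d := by abel
        rw [this])) (by
        have : d + f + (c - f) = c + d := by abel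
        rw [this]
        exact h.nv)
    rwa [add_comm f d]
  · have : f + (c - f + d') = c + d' := by abel
    rw [this]
    exact h.nv'

/-- the new core at `x r_c` -/
theorem core_step (hF2 : F2Stmt S) (hx : S.A x) (h : S.Core x b c d d') (ha : S.Arr x c f) (h1 : R.Q d f = 0)
    (h2 : R.Q d' f = 1) : S.Core (x * R.r c) b f (c + d) (d' - f) := by
  have hp := S.c13_G1 hx ha h.id' h.qcd' h.nv' h2
  have hcc := h.fc.q
  have hy := S.act hx h.fc
  have hbc := h.qbc
  have hyb : (x * R.r c) b = x b := by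
    simp only [Module.End.mul_apply, r_apply, hbc, zero_smul, sub_zero]
  have hfy : S.F (x * R.r c) f := S.T2 h.fc ha.fc ha.q ha.v
  have hdc : R.Q d c = -1 := by rw [R.Q_comm]; exact h.qcd
  have hd'c : R.Q d' c = -1 := by rw [R.Q_comm]; exact h.qcd'
  have hfc : R.Q f c = -1 := by rw [R.Q_comm]; exact ha.q
  have hfd : R.Q f d = 0 := by rw [R.Q_comm]; exact h1
  have hfd' : R.Q f d' = 1 := by rw [R.Q_comm]; exact h2
  have hd'd : R.Q d' d = 0 := by rw [R.Q_comm]; exact h.qdd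
  have hdq := h.id.q
  have hd'q := h.id'.q
  have hfq := ha.fc.q
  refine ⟨hF2 x c b hx h.sink h.fc (by rw [hyb]; exact h.sink.fb.xp), hfy,
    ⟨?_, R.P_add h.fc.p h.id.p, ?_⟩, ⟨?_, hp, ?_⟩, ?_, ?_, ?_, by rw [h.sum]; abel, ?_, ?_⟩
  · simp only [Q_add, Q_addr, hcc, hdq, h.qcd, hdc]; norm_num
  · refine R.P_cast h.id.xn ?_
    simp only [Module.End.mul_apply, r_apply, Q_add, hcc, hdc, map_add, map_sub, map_zsmul, map_neg]
    module
  · simp only [Q_sub, Q_subr, hd'q, hfq, hfd', h2]; norm_num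
  · refine R.P_cast (R.P_add h.id'.xn ha.fc.xp) ?_
    simp only [Module.End.mul_apply, r_apply, Q_sub, hd'c, hfc, map_add, map_sub, map_zsmul, map_neg]
    module
  · simp only [Q_add, Q_subr, h.qcd', ha.q, h.qdd, h1]; norm_num
  · simp only [Q_addr, hfc, hfd]; norm_num
  · simp only [Q_subr, hfd', hfq]; norm_num
  · have h3 := S.c13_G3 ha h.id h1 h.qcd h.pcd h.nv
    have : f + (c + d) = c + d + f := by abel
    rwa [this]
  · have : f + (d' - f) = d' := by abel
    rw [this]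
    intro hV
    have e2 : Ch2 R c d' := Ch2.mk' hcc hd'q h.qcd' h.fc.p h.id'.p
    exact h.nv' (S.dn hV (b := c) e2.aa e2.pa h.id'.xn (by (simp only [Module.End.mul_apply, Module.End.one_apply, RootLat.r_apply, RootLat.Q_sub, RootLat.Q_smul, RootLat.Q_subr, RootLat.Q_smulr, RootLat.Q_add, RootLat.Q_addr, RootLat.Q_neg, RootLat.Q_negr, Ch2.aa e2, Ch2.bb e2, Ch2.ab e2, Ch2.ba e2, map_add, map_sub, map_neg, map_zsmul]; try module)) (by (refine LinearMap.ext fun zz => ?_; simp only [Module.End.mul_apply, Module.End.one_apply, RootLat.r_apply, RootLat.Q_sub, RootLat.Q_smul, RootLat.Q_subr, RootLat.Q_smulr, RootLat.Q_add, RootLat.Q_addr, RootLat.Q_neg, RootLat.Q_negr, Ch2.aa e2, Ch2.bb e2, Ch2.ab e2, Ch2.ba e2, map_add, map_sub, map_neg, map_zsmul]; try module)))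

/-- tail of a path -/
theorem c13_pth_tail {f : ℕ → L} {n j : ℕ} (hj : j < n) (h : ∀ k < n, S.Arr x (f k) (f (k + 1))) :
    S.Pth x (n - j) (f j) (f n) := by
  refine ⟨fun k => f (j + k), rfl, ?_, ?_⟩
  · show f (j + (n - j)) = f n
    rw [Nat.add_sub_cancel' hj.le]
  · intro k hk
    exact h (j + k) (by omega)

/-- an arrow followed by a path -/
theorem c13_pth_cons {a b c : L} {n : ℕ} (h : S.Arr x a b) (hp : S.Pth x n b c) : S.Pth x (n + 1) a c := by
  obtain ⟨g, h0, h1, h2⟩ := hp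
  refine ⟨fun k => if k = 0 then a else g (k - 1), rfl, by simpa using h1, ?_⟩
  intro k hk
  rcases Nat.eq_zero_or_pos k with rfl | hk0
  · simp only [zero_add, if_true, one_ne_zero, if_false, Nat.sub_self, h0]
    exact h
  · have h3 : g (k - 1 + 1) = g k := by rw [Nat.sub_add_cancel hk0]
    have := h2 (k - 1) (by omega)
    rw [h3] at this
    simp only [hk0.ne', if_false, Nat.succ_ne_zero, Nat.add_sub_cancel]
    exact this

theorem C_aux (hXY : XYStmt S) (hF2 : F2Stmt S) (hD : DStmt S) : ∀ m : ℕ, ∀ x, S.μ x = m → S.A x → ∀ n : ℕ, 0 < n →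
    ∀ b c d d' e, S.Core x b c d d' → S.Pth x n c e → R.P (b - e) ∧ (R.Q e b = 0 ∨ R.Q e b = 1) := by
  intro m
  induction m using Nat.strong_induction_on with
  | _ m ihm =>
  intro x hm hx n
  induction n using Nat.strong_induction_on with
  | _ n ihn =>
  intro hn b c d d' e hcore hpth
  obtain ⟨f, hf0, hfn, harr⟩ := hpth
  have hfF : ∀ j, j ≤ n → S.F x (f j) := by
    intro j hj
    rcases Nat.lt_or_ge j n with h | h
    · exact (harr j h).fb
    · have : j = (n - 1) + 1 := by omega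
      rw [this]
      exact (harr (n - 1) (by omega)).fc
  have ha0 : S.Arr x c (f 1) := by
    have := harr 0 hn
    rwa [hf0] at this
  -- length one
  rcases Nat.lt_or_ge 1 n with hn2 | hn1
  swap
  · have h1 : n = 1 := by omega
    rw [h1] at hfn
    rw [hfn] at ha0
    exact S.c13_one hx hcore ha0
  have hpre : ∀ j, 0 < j → j < n → R.P (b - f j) ∧ (R.Q (f j) b = 0 ∨ R.Q (f j) b = 1) := by
    intro j h0 hj
    exact ihn j hj h0 b c d d' (f j) hcore ⟨f, hf0, rfl, fun k hk => harr k (by omega)⟩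
  have hbq := hcore.sink.fb.q
  -- if some `f j` has product one with `b`
  by_cases hone : ∃ j, 0 < j ∧ j < n ∧ R.Q (f j) b = 1
  · obtain ⟨j, h0, hj, h1⟩ := hone
    have h2 := (hpre j h0 hj).1
    refine hD x hx b (f j) e hcore.sink (hfF j hj.le) ?_ h2 ⟨n - j, by omega, ?_⟩
    · simp only [Q_sub, Q_subr, hbq, (hfF j hj.le).q, R.Q_comm b (f j), h1]; norm_num
    · rw [← hfn]
      exact S.c13_pth_tail hj harr
  push Not at hone
  have hz : ∀ j, 0 < j → j < n → R.Q (f j) b = 0 := by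
    intro j h0 hj
    rcases (hpre j h0 hj).2 with h | h
    · exact h
    · exact absurd h (hone j h0 hj)
  -- the products with `c`
  have hreach : ∀ j, 0 < j → j ≤ n → S.Good x c (f j) := fun j h0 hj =>
    hXY x hx c (f j) ⟨j, h0, f, hf0, rfl, fun k hk => harr k (by omega)⟩
  have hq0or : ∀ j, 2 ≤ j → j < n → R.Q c (f j) ≠ 0 → R.P (b - e) ∧ (R.Q e b = 0 ∨ R.Q e b = 1) := by
    intro j h2 hj hne
    rcases (hreach j (by omega) hj.le).2 with h | ⟨h, ha⟩ | ⟨h, hi⟩
    · exact absurd h hne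
    · refine ihn (n - j + 1) (by omega) (by omega) b c d d' e hcore ?_
      rw [← hfn]
      exact S.c13_pth_cons ha (S.c13_pth_tail hj harr)
    · have hb0 := hz j (by omega) hj
      have hjF := hfF j hj.le
      have hsum : R.Q (f j) d + R.Q (f j) d' = -1 := by
        have h3 := hb0
        rw [hcore.sum] at h3
        simp only [Q_addr, R.Q_comm (f j) c, h] at h3
        linarith
      have hned : f j ≠ d := fun he => R.P_neg hjF.xp (he ▸ hcore.id.xn)
      have hned' : f j ≠ d' := fun he => R.P_neg hjF.xp (he ▸ hcore.id'.xn)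
      have hdd := R.Q_cases' hjF.q hcore.id.q hjF.p hcore.id.p hned
      have hdd' := R.Q_cases' hjF.q hcore.id'.q hjF.p hcore.id'.p hned'
      have htail : S.Pth x (n - j) (f j) e := by
        rw [← hfn]
        exact S.c13_pth_tail hj harr
      have hcases : (R.Q (f j) d = -1 ∧ R.Q (f j) d' = 0) ∨ (R.Q (f j) d = 0 ∧ R.Q (f j) d' = -1) := by
        omega
      rcases hcases with ⟨h4, h5⟩ | ⟨h4, h5⟩
      · exact ihn (n - j) (by omega) (by omega) b (f j) d (c - f j + d') e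
          (S.core_shift hx hcore hjF h hi hb0 h4 h5) htail
      · exact ihn (n - j) (by omega) (by omega) b (f j) d' (c - f j + d) e
          (S.core_shift hx hcore.swap hjF h hi hb0 h5 h4) htail
  by_cases hex : ∃ j, 2 ≤ j ∧ j < n ∧ R.Q c (f j) ≠ 0
  · obtain ⟨j, h2, hj, hne⟩ := hex
    exact hq0or j h2 hj hne
  push Not at hex
  have heF : S.F x e := hfn ▸ hfF n le_rfl
  -- the product with `e`
  have hge := hreach n hn le_rfl
  rw [hfn] at hge
  rcases hge.2 with h | ⟨h, ha⟩ | ⟨h, hi⟩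
  · -- `(c, e) = 0`
    have hq1 := hcore.q01 ha0
    have hq1' := hcore.swap.q01 ha0
    have hsum1 : R.Q d (f 1) + R.Q d' (f 1) = 1 := by
      have h3 := hz 1 (by norm_num) hn2
      rw [hcore.sum] at h3
      simp only [Q_addr, R.Q_comm (f 1) c, R.Q_comm (f 1) d, R.Q_comm (f 1) d', ha0.q] at h3
      linarith
    -- the path at `y`
    have hy := S.act hx hcore.fc
    have hFy : ∀ j, 1 ≤ j → j ≤ n → S.F (x * R.r c) (f j) := by
      intro j h1 hj
      rcases Nat.lt_or_ge j 2 with h2 | h2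
      · have : j = 1 := by omega
        rw [this]
        exact S.T2 hcore.fc ha0.fc ha0.q ha0.v
      · refine S.T1 hx hcore.fc (hfF j hj) ?_
        rcases Nat.lt_or_ge j n with h3 | h3
        · exact hex j h2 h3
        · have : j = n := by omega
          rw [this, hfn]
          exact h
    have hQ : ∀ j, 2 ≤ j → j ≤ n → R.Q c (f j) = 0 := by
      intro j h2 hj
      rcases Nat.lt_or_ge j n with h3 | h3
      · exact hex j h2 h3
      · have : j = n := by omega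
        rw [this, hfn]
        exact h
    have harry : ∀ j, 1 ≤ j → j < n → S.Arr (x * R.r c) (f j) (f (j + 1)) := by
      intro j h1 hj
      refine S.UT hx (harr j hj) hcore.fc (hFy j h1 hj.le) (hFy (j + 1) (by omega) hj) ?_
      have h4 := hQ (j + 1) (by omega) hj
      rcases Nat.lt_or_ge j 2 with h2 | h2
      · have : j = 1 := by omega
        subst this
        refine R.P_cast (R.P_add hcore.fc.p ha0.fc.p) ?_
        rw [ha0.q, h4]
        module
      · refine R.P_cast hcore.fc.p ?_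
        rw [hQ j h2 hj.le, h4]
        module
    have hpathy : S.Pth (x * R.r c) (n - 1) (f 1) e := by
      refine ⟨fun k => f (1 + k), rfl, ?_, ?_⟩
      · show f (1 + (n - 1)) = e
        rw [Nat.add_sub_cancel' hn]
        exact hfn
      · intro k hk
        exact harry (1 + k) (by omega) (by omega)
    have hmu : S.μ (x * R.r c) < m := by
      rw [← hm]
      exact S.mu x c hx hcore.fc
    have hcases : (R.Q d (f 1) = 0 ∧ R.Q d' (f 1) = 1) ∨ (R.Q d' (f 1) = 0 ∧ R.Q d (f 1) = 1) := by omega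
    rcases hcases with ⟨h4, h5⟩ | ⟨h4, h5⟩
    · exact ihm _ hmu _ rfl hy (n - 1) (by omega) b (f 1) (c + d) (d' - f 1) e
        (S.core_step hF2 hx hcore ha0 h4 h5) hpathy
    · exact ihm _ hmu _ rfl hy (n - 1) (by omega) b (f 1) (c + d') (d - f 1) e
        (S.core_step hF2 hx hcore.swap ha0 h4 h5) hpathy
  · exact S.c13_one hx hcore ha
  · -- `(c, e) = 1`
    have hsumE : R.Q e b = 1 + R.Q e d + R.Q e d' := by
      rw [hcore.sum]
      simp only [Q_addr, R.Q_comm e c, h]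
    refine ⟨R.P_cast (R.P_add (R.P_add hi.p hcore.id.p) hcore.id'.p) (by rw [hcore.sum]; abel), ?_⟩
    have hned : e ≠ d := fun he => R.P_neg heF.xp (he ▸ hcore.id.xn)
    have hned' : e ≠ d' := fun he => R.P_neg heF.xp (he ▸ hcore.id'.xn)
    have hneb : e ≠ b := by
      intro he
      rw [he, R.Q_comm, hcore.qbc] at h
      norm_num at h
    have hdd := R.Q_cases' heF.q hcore.id.q heF.p hcore.id.p hned
    have hdd' := R.Q_cases' heF.q hcore.id'.q heF.p hcore.id'.p hned'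
    have hbb := R.Q_cases' heF.q hbq heF.p hcore.sink.fb.p hneb
    rcases hbb with h6 | h6 | h6
    · exfalso
      have h7 : R.Q e d = -1 := by omega
      have h8 : R.Q e d' = -1 := by omega
      have hthq : R.Q (c + d') (c + d') = 2 := by
        simp only [Q_add, Q_addr, hcore.fc.q, hcore.id'.q, R.Q_comm d' c, hcore.qcd']; norm_num
      have hbsum : c + d' + d = b := by rw [hcore.sum]; abel
      have hg := S.c13_G5 (g := c + d') (d := d) (e := e) hcore.id (by
          rw [Q_add, hcore.qcd, R.Q_comm d' d, hcore.qdd]; norm_num) (by rw [hbsum]; exact hcore.sink.fb) heF hthq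
        (R.P_add hcore.fc.p hcore.id'.p) hcore.nv' (by
          rw [Q_add, h, R.Q_comm d' e, h8]; norm_num) (by rw [R.Q_comm]; exact h7)
        (by
          refine R.P_cast (R.P_add hcore.pcd hi.xn) ?_
          simp only [map_add, map_sub]
          abel)
      rw [hbsum] at hg
      exact hg (hcore.sink.s e heF (by rw [R.Q_comm]; exact h6))
    · exact Or.inl h6
    · exact Or.inr h6

theorem c_stmt (hXY : XYStmt S) (hF2 : F2Stmt S) (hD : DStmt S) : CStmt S := by
  intro x hx b c d d' e hcore ⟨n, hn, hp⟩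
  exact S.C_aux hXY hF2 hD _ x rfl hx n hn b c d d' e hcore hp

end Sys

end Pool.Agent.H11.ZDE
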