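import Pool.Agent.H11.ZDE.Stmts

/-!
# ZDE, module FIN: inverse transport, the abstract system of a zircon, the final theorem
-/

set_option autoImplicit false

namespace Pool.Agent.H11.ZDE

open RootLat

namespace FIN

variable {B W : Type*} [Group W] {M : CoxeterMatrix B} (cs : CoxeterSystem M W)

theorem bru_inv {x y : W} (h : Bru cs x y) : Bru cs x⁻¹ y⁻¹ := by
  induction h with
  | refl => exact Relation.ReflTransGen.refl
  | tail _ hb ih =>
    refine ih.tail ?_
    obtain ⟨t, ht, rfl, hl⟩ := hb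
    rename_i b _
    refine ⟨b * t⁻¹ * b⁻¹, ?_, ?_, ?_⟩
    · have h1 : t⁻¹ = t := ht.inv
      rw [h1]
      exact ht.conj b
    · group
    · rw [cs.length_inv, cs.length_inv]
      exact hl

theorem bru_inv_iff {x y : W} : Bru cs x⁻¹ y⁻¹ ↔ Bru cs x y := by
  constructor
  · intro h
    have := bru_inv cs h
    rwa [inv_inv, inv_inv] at this
  · exact bru_inv cs

theorem cov_inv {x y : W} (h : Cov cs x y) : Cov cs x⁻¹ y⁻¹ := by
  refine ⟨bru_inv cs h.1, fun e => h.2.1 (inv_injective e), fun z h1 h2 => ?_⟩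
  have h3 : Bru cs x z⁻¹ := by
    have := bru_inv cs h1
    rwa [inv_inv] at this
  have h4 : Bru cs z⁻¹ y := by
    have := bru_inv cs h2
    rwa [inv_inv] at this
  rcases h.2.2 z⁻¹ h3 h4 with h5 | h5
  · left
    rw [← h5, inv_inv]
  · right
    rw [← h5, inv_inv]

theorem sm_inv {u v : W} {m : W → W} (h : SM cs u v m) : SM cs u⁻¹ v⁻¹ (fun x => (m x⁻¹)⁻¹) := by
  have key : ∀ x, Ic cs u⁻¹ v⁻¹ x → Ic cs u v x⁻¹ := by
    intro x hx
    constructor
    · have := bru_inv cs hx.1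
      rwa [inv_inv] at this
    · have := bru_inv cs hx.2
      rwa [inv_inv] at this
  refine ⟨?_, ?_, ?_, ?_⟩
  · intro x hx
    have h1 := h.maps _ (key x hx)
    exact ⟨bru_inv cs h1.1, bru_inv cs h1.2⟩
  · intro x hx
    simp only [inv_inv]
    rw [h.invol _ (key x hx), inv_inv]
  · intro x hx
    rcases h.cov _ (key x hx) with h1 | h1
    · left
      have := cov_inv cs h1
      rwa [inv_inv] at this
    · right
      have := cov_inv cs h1
      rwa [inv_inv] at this
  · intro x y hx hy hxy hne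
    have h1 : Cov cs x⁻¹ y⁻¹ := cov_inv cs hxy
    have h2 : m x⁻¹ ≠ y⁻¹ := by
      intro e
      apply hne
      simp only [e, inv_inv]
    have h3 := h.special _ _ (key x hx) (key y hy) h1 h2
    exact ⟨bru_inv cs h3.1, fun e => h3.2 (inv_injective e)⟩

theorem zircon_inv {u w : W} (h : Zircon cs u w) : Zircon cs u⁻¹ w⁻¹ := by
  intro v h1 h2 h3
  have h4 : Bru cs u v⁻¹ := by
    have := bru_inv cs h1
    rwa [inv_inv] at this
  have h5 : Bru cs v⁻¹ w := by
    have := bru_inv cs h3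
    rwa [inv_inv] at this
  obtain ⟨m, hm⟩ := h v⁻¹ h4 (fun e => h2 (by rw [e, inv_inv])) h5
  have := sm_inv cs hm
  rw [inv_inv] at this
  exact ⟨_, this⟩

theorem bru_length {x y : W} (h : Bru cs x y) : cs.length x ≤ cs.length y := by
  induction h with
  | refl => exact le_rfl
  | tail _ hb ih =>
    obtain ⟨t, _, _, hl⟩ := hb
    exact ih.trans hl.le

variable {cs}
variable {L : Type*} [AddCommGroup L] {R : RootLat L} (G : Geo cs R)

theorem neg_mul_r (z : W) (b : L) (hb : R.Q b b = 2) :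
    -(G.ρ z) * R.r b = -(G.ρ (z * G.T b)) := by
  rw [map_mul, G.ρT b hb, neg_mul]

theorem neg_inj {z z' : W} (h : -(G.ρ z) = -(G.ρ z')) : z = z' := G.inj (neg_injective h)

open Classical in
/-- the system of a pair `u ≤ w` -/
noncomputable def sys (u w : W) (H : WRules G u w) : Sys R where
  V x := ∃ z, Bru cs u z ∧ x = -(G.ρ z)
  A x := ∃ z, Ic cs u w z ∧ x = -(G.ρ z)
  μ x := if h : ∃ z, x = -(G.ρ z) then cs.length h.choose else 0
  iso := by
    rintro x ⟨z, -, rfl⟩ a b
    rw [LinearMap.neg_apply, LinearMap.neg_apply, R.Q_neg, R.Q_negr, neg_neg, G.iso]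
  AV := by
    rintro x ⟨z, hz, rfl⟩
    exact ⟨z, hz.1, rfl⟩
  down := by
    rintro x b ⟨z, hz, rfl⟩ hb pb pxb
    refine ⟨z * G.T b, ?_, neg_mul_r G z b hb⟩
    rw [LinearMap.neg_apply, neg_neg] at pxb
    exact hz.tail ⟨G.T b, (G.refl _).mpr ⟨b, hb, pb, rfl⟩, rfl, G.lt z b hb pb pxb⟩
  up := by
    rintro x b ⟨z, hz, rfl⟩ ⟨hb, pb, pxb, z', hz', e⟩
    rw [neg_mul_r G z b hb] at e
    have := neg_inj G e
    subst this
    refine ⟨z * G.T b, ⟨hz', ?_⟩, neg_mul_r G z b hb⟩
    rw [LinearMap.neg_apply] at pxb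
    have hl := G.gt z b hb pb pxb
    have hrefl : cs.IsReflection (G.T b) := (G.refl _).mpr ⟨b, hb, pb, rfl⟩
    have h1 : Bru cs (z * G.T b) z := by
      refine Relation.ReflTransGen.single ⟨G.T b, hrefl, ?_, hl⟩
      rw [mul_assoc, hrefl.mul_self, mul_one]
    exact h1.trans hz.2
  mu := by
    rintro x b ⟨z, hz, rfl⟩ ⟨hb, pb, pxb, -⟩
    have e1 : ∃ z', -(G.ρ z) = -(G.ρ z') := ⟨z, rfl⟩
    have e2 : ∃ z', -(G.ρ z) * R.r b = -(G.ρ z') := ⟨z * G.T b, neg_mul_r G z b hb⟩
    rw [dif_pos e1, dif_pos e2]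
    have h1 : e1.choose = z := (neg_inj G e1.choose_spec).symm
    have h2 : e2.choose = z * G.T b := by
      have := (neg_mul_r G z b hb).symm.trans e2.choose_spec
      exact (neg_inj G this).symm
    rw [h1, h2]
    rw [LinearMap.neg_apply] at pxb
    exact G.gt z b hb pb pxb
  ruleO := by
    rintro x b c ⟨z, hz, rfl⟩ ⟨hb, pb, pxb, z1, hz1, e1⟩ ⟨hc, pc, pxc, z2, hz2, e2⟩ hbc
    rw [neg_mul_r G z b hb] at e1
    rw [neg_mul_r G z c hc] at e2
    rw [← neg_inj G e1] at hz1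
    rw [← neg_inj G e2] at hz2
    refine ⟨z * G.T b * G.T c, H.O z b c hz hb pb pxb hz1 hc pc pxc hz2 hbc, ?_⟩
    rw [neg_mul_r G z b hb, neg_mul_r G _ c hc]
  ruleM := by
    rintro x b c ⟨z, hz, rfl⟩ ⟨hb, pb, pxb, z1, hz1, e1⟩ ⟨hc, pc, pxc, z2, hz2, e2⟩ hbc
    rw [neg_mul_r G z b hb] at e1
    rw [neg_mul_r G z c hc] at e2
    rw [← neg_inj G e1] at hz1
    rw [← neg_inj G e2] at hz2
    rcases H.M z b c hz hb pb pxb hz1 hc pc pxc hz2 hbc with h | h
    · left
      refine ⟨z * G.T b * G.T c, h, ?_⟩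
      rw [neg_mul_r G z b hb, neg_mul_r G _ c hc]
    · right
      refine ⟨z * G.T c * G.T b, h, ?_⟩
      rw [neg_mul_r G z c hc, neg_mul_r G _ b hb]
  ruleL := by
    rintro x b i ⟨z, hz, rfl⟩ ⟨hb, pb, pxb, z1, hz1, e1⟩ ⟨hi, pi, pxi⟩ ⟨hs, ps, pxs, z2, hz2, e2⟩
    rw [neg_mul_r G z b hb] at e1
    rw [neg_mul_r G z (b + i) hs] at e2
    rw [← neg_inj G e1] at hz1
    rw [← neg_inj G e2] at hz2
    rw [LinearMap.neg_apply, neg_neg] at pxi
    refine ⟨z * G.T b * G.T i, H.L z b i hz hb pb pxb hz1 hi pi pxi hs pxs hz2, ?_⟩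
    rw [neg_mul_r G z b hb, neg_mul_r G _ i hi]

end FIN

open FIN

variable {B W : Type*} [Group W] {M : CoxeterMatrix B} {cs : CoxeterSystem M W}
  {L : Type*} [AddCommGroup L] {R : RootLat L}

/-- FIN: the abstract main theorem and the rules give the descent theorem. -/
theorem descent_of (G : Geo cs R) (hmain : ∀ S : Sys R, MainStmt S)
    (hrules : ∀ u w : W, Zircon cs u w → WRules G u w) : Descent cs := by
  intro u w huw hne hz
  have hz' := zircon_inv cs hz
  have huw' : Bru cs u⁻¹ w⁻¹ := bru_inv cs huw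
  set u' := u⁻¹ with hu'
  set w' := w⁻¹ with hw'
  have hne' : u' ≠ w' := fun e => hne (inv_injective e)
  set S : Sys R := sys G u' w' (hrules u' w' hz') with hS
  have hSV : ∀ z, S.V (-(G.ρ z)) ↔ Bru cs u' z := by
    intro z
    constructor
    · rintro ⟨z', h1, e⟩
      rwa [neg_inj G e]
    · intro h
      exact ⟨z, h, rfl⟩
  -- transport of a simple right descent to a simple left descent
  have hlen : ∀ (x : W) (i : B), cs.length (cs.simple i * x) = cs.length (x⁻¹ * cs.simple i) := by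
    intro x i
    rw [← cs.length_inv (cs.simple i * x), mul_inv_rev, cs.inv_simple]
  have hA : S.A (-(G.ρ w')) := ⟨w', ⟨huw', Relation.ReflTransGen.refl⟩, rfl⟩
  by_cases hfull : S.Full (-(G.ρ w'))
  · -- the maximal element
    have hup : ∀ z, Bru cs u' z → S.Up (-(G.ρ z)) (-(G.ρ u')) := by
      intro z hz
      induction hz with
      | refl => exact Relation.ReflTransGen.refl
      | tail h1 hb ih =>
        rename_i b c
        obtain ⟨t, ht, rfl, hl⟩ := hb
        obtain ⟨a, ha, pa, rfl⟩ := (G.refl t).mp ht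
        refine Relation.ReflTransGen.head ?_ ih
        have e1 : b * G.T a * G.T a = b := by rw [mul_assoc, ht.mul_self, mul_one]
        have e2 : -(G.ρ (b * G.T a)) * R.r a = -(G.ρ b) := by rw [neg_mul_r G _ a ha, e1]
        refine ⟨a, ⟨ha, pa, ?_, ?_⟩, e2.symm⟩
        · have h2 : R.Q (G.ρ (b * G.T a) a) (G.ρ (b * G.T a) a) = 2 := by rw [G.iso, ha]
          rcases R.P_root _ h2 with h3 | h3
          · exfalso
            have h4 := G.lt _ a ha pa h3
            rw [e1] at h4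
            omega
          · rw [LinearMap.neg_apply]
            exact h3
        · rw [e2]
          exact (hSV b).mpr h1
    have hmax : ∀ a, ¬ S.F (-(G.ρ u')) a := by
      rintro a ⟨ha, pa, pxa, hv⟩
      rw [neg_mul_r G _ a ha] at hv
      have h1 := bru_length cs ((hSV _).mp hv)
      rw [LinearMap.neg_apply] at pxa
      have h2 := G.gt u' a ha pa pxa
      omega
    obtain ⟨s, hs, h1, h2⟩ := hmain S (-(G.ρ w')) (-(G.ρ u')) hA hfull (hup w' huw')
      (fun e => hne' (neg_inj G e).symm) hmax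
    have hsα : s ∈ Set.range G.α := by rw [G.αS]; exact hs
    obtain ⟨i, rfl⟩ := hsα
    have hq := R.S_root _ hs
    have hp := R.S_pos _ hs
    rw [LinearMap.neg_apply] at h1 h2
    rw [neg_neg] at h2
    refine ⟨i, ?_, Or.inr ?_⟩
    · rw [hlen, ← G.Tα, ← hw', ← cs.length_inv w, ← hw']
      exact G.gt w' _ hq hp h1
    · rw [hlen, ← G.Tα, ← hu', ← cs.length_inv u, ← hu']
      exact G.lt u' _ hq hp h2
  · unfold Sys.Full at hfull
    push Not at hfull
    obtain ⟨s, hs, h1, h2⟩ := hfull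
    have hsα : s ∈ Set.range G.α := by rw [G.αS]; exact hs
    obtain ⟨i, rfl⟩ := hsα
    have hq := R.S_root _ hs
    have hp := R.S_pos _ hs
    rw [LinearMap.neg_apply] at h1
    rw [neg_mul_r G _ _ hq, hSV] at h2
    refine ⟨i, ?_, Or.inl ?_⟩
    · rw [hlen, ← G.Tα, ← hw', ← cs.length_inv w, ← hw']
      exact G.gt w' _ hq hp h1
    · intro h3
      apply h2
      have h4 := bru_inv cs h3
      rw [mul_inv_rev, cs.inv_simple, ← G.Tα] at h4
      exact h4

end Pool.Agent.H11.ZDE
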